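import Pool.Agent.H.MP_83e36b_nt.nr.Galois

/-! Noether's problem modulo normal subgroups with alternating composition factors.

Let `k` be a field of characteristic zero, `K` an extension field of `k`, `G` a finite group and
`N` a normal subgroup of `G` such that all composition factors of `N` are alternating groups `A_n`,
`n ≥ 5`, `n ≠ 6` (or, more generally, such that `N` is the top of a Weyl tower).  Let `G / N` act on
`K` over `k`, let `G` act faithfully and semilinearly on `K(x_1, ..., x_d)` and `G / N` on
`K(y_1, ..., y_e)`.  Then the fields of invariants `K(x)^G` and `K(y)^(G/N)` are stably isomorphic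
over `k`. -/

set_option autoImplicit false

namespace Pool.Agent.Results.MP_83e36b_nt.NormalAlternating

open CM83 NR83

universe u v w

/-- Main theorem. -/
theorem result {k : Type u} [Field k] [CharZero k] {K : Type w} [Field K] [Algebra k K]
    {G : Type v} [Group G] [Finite G] (N : Subgroup G) [N.Normal]
    (hN : AltSeries N ∨ Tower G N) (α : G ⧸ N →* (K ≃ₐ[k] K)) {d e : ℕ}
    (β : G →* (RF K d ≃ₐ[k] RF K d)) (hβ : SemiLin (α.comp (QuotientGroup.mk' N)) β)
    (γ : G ⧸ N →* (RF K e ≃ₐ[k] RF K e)) (hγ : SemiLin α γ) :
    StablyIso k (fixF β) (fixF γ) := by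
  have h : Tower G N := hN.elim (Tower.of_alt N) id
  exact red_tower h α d e β hβ γ hγ

end Pool.Agent.Results.MP_83e36b_nt.NormalAlternating
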