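import Pool.Agent.H.MP_83e36b_nt.rd.FinLD

/-! Reduction of the Brauer-Manin obstruction to weak approximation for homogeneous spaces of `SL_M`
with finite stabilizers modulo normal subgroups built up from reflection groups, alternating groups and
the double covers `2.A_n` of all degrees.

Let `K/k` be a finite Galois extension of number fields, `γ : A → Gal(K/k)` a homomorphism of an
ARBITRARY finite group `A` onto the Galois group, and `q : G → A` a composition, in any order, of an
isomorphism and of surjections with kernel

* a group which acts faithfully on a `K`-semilinear representation and generates, together with a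
  finite group of scalars, a group generated by pseudo-reflections (for instance a product of symmetric
  groups, all permutations of a finite set `J` over a finite set `I`),
* a group whose composition factors are alternating groups `A_n`, `n ≥ 5`, `n ≠ 6` (or, more generally,
  the top of a Weyl tower),
* the double cover `2.A_n`, `n ≥ 4`, mapped isomorphically onto the subgroup `2.A_n` of `2.A_N` by a
  homomorphism to `2.A_N`,
* the double cover `2.A_n`, `n ≥ 4`, with a complement and with the action through `S_n`

(`RTow γ q`).  Let `G` act faithfully and semilinearly on `K(x_1, ..., x_d)` and `A` on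
`K(y_1, ..., y_e)`, by `γ ∘ q` and `γ` on `K`, and let `φ : K(y) → K(x)` be an equivariant embedding
over `K`.  Let `X'` be an affine variety over `k` with the field of functions `K(y)^A`, with the
coordinate functions `w_1, ..., w_n`, let `X : f(u, z) = 0`, `∂f/∂z ≠ 0`, `g ≠ 0` be a smooth
hypersurface model over `k` of a field which is stably isomorphic to `K(x)^G` over the field of functions
of `X'`, and let `π : X → X'` be the corresponding morphism, given by the functions `c_j / g ^ N`.

Then, for every number field `L` over `k` and every finite set `T` of finite places of `L`: every open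
subset `U` of the product of the `X(L_v)`, `v` an infinite place of `L` or `v` in `T`, which is mapped by
`π` into the closure of `X'(L)` is contained in the closure of `X(L)`.

So if the Brauer-Manin obstruction to weak approximation is the only one for (a smooth compactification
of) `X'`, then it is the only one for `X`.  For `A = Gal(K/k)`, `e = 0`, `n = 0` this is weak
approximation for `X` (`main_cor` in rd/Cor.lean). -/

set_option autoImplicit false

open Polynomial NumberField IsDedekindDomain

namespace Pool.Agent.Results.MP_83e36b_nt.ReductionTowers

open CM83 NR83 WA83 DC83 NF83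

/-- Main theorem. -/
theorem result {k : Type} [Field k] [NumberField k] {K : Type} [Field K] [Algebra k K]
    {A G : Type} [Group A] [Finite A] [Group G] [Finite G] (γ : A →* (K ≃ₐ[k] K))
    (hfix : fixF γ = ⊥) (q : G →* A) (hq : RTow γ q) {d e : ℕ}
    (β : G →* (RF K d ≃ₐ[k] RF K d)) (hβ : SemiLin (γ.comp q) β)
    (δ : A →* (RF K e ≃ₐ[k] RF K e)) (hδ : SemiLin γ δ) (φ : RF K e →ₐ[K] RF K d)
    (hφ : ∀ g z, β g (φ z) = φ (δ (q g) z))
    {n : ℕ} (w : Fin n → fixF δ) (hw : IntermediateField.adjoin k (Set.range w) = ⊤)
    (w' : Fin n → fixF β) (hw' : ∀ j, (w' j : RF K d) = φ (w j))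
    {m : ℕ} {f g : (MvPolynomial (Fin m) k)[X]} {F : Type} [Field F] [Algebra k F]
    {ξ : Fin m → F} {η : F} (h : Generic f F ξ η) (hg : evP (algebraMap k F) ξ η g ≠ 0)
    (c : Fin n → (MvPolynomial (Fin m) k)[X]) (N : ℕ)
    (hF : StIsoRel k (fun j => evP (algebraMap k F) ξ η (c j) / evP (algebraMap k F) ξ η g ^ N) w')
    (L : Type) [Field L] [NumberField L] [Algebra k L] :
    WARel L (polL k L f) (polL k L g) (PtsA k w L) (fun j => polL k L (c j)) N :=
  main_DL γ hfix q hq β hβ δ hδ φ hφ h hg w hw c N w' hw' hF L

end Pool.Agent.Results.MP_83e36b_nt.ReductionTowers
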