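import Pool.Agent.H.MP_83e36b_nt.hm.XFin
import Pool.Agent.H.MP_83e36b_nt.hm.MBr

/-! Weak approximation over number fields for homogeneous spaces of `Spin(Q)` with stabilizer `2.A_n`.

Let `k` be a number field, `Q` a symmetric invertible matrix of size `n ≥ 4` over `k` and `X_Q` the variety
of the pairs `(f, B)`, `f` monic of degree `n`, `B` an invertible matrix such that `Bᵀ Q B` is the matrix
of the trace form `Tr (u v)` of `k[X]/(f)` in the basis `1, x, ..., x^(n-1)`.  Then, for every finite
set `T` of finite places of `k`, the set `X_Q(k)` is dense in the product of the `X_Q(k_v)`, `v` an infinite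
place or `v` in `T`; in particular `X_Q` satisfies the Hasse principle. -/

set_option autoImplicit false

open NumberField IsDedekindDomain

namespace Pool.Agent.Results.MP_83e36b_nt.SpinForms

open NF83 Matrix

/-- Main theorem. -/
theorem result {k : Type} [Field k] [NumberField k] {n : ℕ} (hn : 4 ≤ n)
    (Q : Matrix (Fin n) (Fin n) k) (hQ : Qᵀ = Q) (hd : Q.det ≠ 0)
    (T : Finset (HeightOneSpectrum (𝓞 k))) :
    DenseRange (fun x : XTrF Q (RingHom.id k) =>
      ((fun v : InfinitePlace k => mapXF (algebraMap k v.Completion) x),
       (fun v : T => mapXF (algebraMap k (v.1.adicCompletion k)) x))) :=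
  dense_XTrF (hMiso_nf k) hn hQ hd T

end Pool.Agent.Results.MP_83e36b_nt.SpinForms
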