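import Pool.Agent.H.MP_83e36b_nt.cm.Final

/-! Noether's problem for the rotation subgroups of the Weyl groups without component of
type `E_8`.

`K = k(x_1, ..., x_n)` is the field of rational functions in the simple roots, the Weyl group `W`
acts on it through the simple reflections `x_i ↦ x_i - A_{ij} x_j`, and `W^+` is the subgroup of
the products of an even number of simple reflections.  The field `K^W` has algebraically
independent generators `t_1, ..., t_n` over `k` one of which is the square of an element `d` with
`s d = - d` for every simple reflection `s`; so `K^{W^+} = k(d, t_2, ..., t_n)` (for `t_1 = d ^ 2`)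
is purely transcendental as well, and so are all quadratic twists
`K^W(√c d) = k(√c d, t_2, ..., t_n)`. -/

namespace Pool.Agent.Results.MP_83e36b_nt.WeylNoether

open CM83

universe u

/-- Main theorem. -/
theorem result (k : Type u) [Field k] [CharZero k] {n : ℕ} {A : Matrix (Fin n) (Fin n) ℤ}
    (hA : NoE8 A) :
    (∀ j : Fin n, ∃! σ : RF k n ≃ₐ[k] RF k n, IsSimpleRefl k A j σ) ∧
    ∃ (t : Fin n → RF k n) (d : RF k n) (i0 : Fin n),
      AlgebraicIndependent k t ∧
      IntermediateField.adjoin k (Set.range t) = IntermediateField.fixedField (weylGroup k A) ∧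
      d ^ 2 = t i0 ∧
      (∀ j σ, IsSimpleRefl k A j σ → σ d = - d) ∧
      AlgebraicIndependent k (Function.update t i0 d) ∧
      IntermediateField.adjoin k (Set.range (Function.update t i0 d)) =
        IntermediateField.fixedField (rotGroup k A) := by
  refine ⟨fun j => ?_, ?_⟩
  · obtain ⟨σ, hσ⟩ := exists_simpleRefl (k := k) A j (hA.diag j)
    exact ⟨σ, hσ, fun σ' hσ' => hσ'.unique hσ⟩
  · obtain ⟨t, d, i0, h1, h2, h3, h4⟩ := hA.good (k := k)
    obtain ⟨h5, h6⟩ := rot_of_good hA.diag h1 h2 h3 h4
    exact ⟨t, d, i0, h1, h2, h3, h4, h5, h6⟩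

end Pool.Agent.Results.MP_83e36b_nt.WeylNoether
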